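import Pool.Agent.Helper95.HS.GoalsA
import Pool.Agent.Helper8.SP.AMAX

/-!
# Packet HS MAXF: maxima of invariant functions
-/

open Complex Metric Set Filter Topology MeasureTheory
open scoped ContDiff ComplexConjugate ComplexOrder Manifold Matrix

namespace Pool.Agent.Helper19.HS

open Pool.Agent.Helper95.Lin Pool.Agent.Helper10.SP Pool.Agent.Helper95.HS

universe u

theorem star_dot_eq {n : ℕ} (A : Matrix (Fin n) (Fin n) ℂ) (y : Fin n → ℂ) :
    star y ⬝ᵥ (A *ᵥ y) = hermi A (fun i => conj (y i)) (fun i => conj (y i)) := by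
  simp only [hermi, dotProduct, Matrix.mulVec, Pi.star_apply, RCLike.star_def, Finset.mul_sum,
    starRingEnd_self_apply]
  refine Finset.sum_congr rfl fun i _ => Finset.sum_congr rfl fun j _ => ?_
  ring

theorem maxf (h1 : S_LMF) : S_MAXF.{u} := by
  intro n T G _ R hE f hf
  obtain ⟨C, hCT, hCc, hC⟩ := hE.coc
  obtain ⟨y₀, hy₀⟩ := hE.nonempty
  obtain ⟨-, z₀, hz₀, -⟩ := hC y₀ hy₀
  obtain ⟨x, hxC, hmax⟩ := hCc.exists_isMaxOn ⟨z₀, hz₀⟩ (hf.1.continuousOn.mono hCT)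
  have hxT := hCT hxC
  have hM : ∀ y ∈ T, f y ≤ f x := by
    intro y hy
    obtain ⟨γ, z, hz, hR⟩ := hC y hy
    rw [← hf.2 γ y z hR]
    exact hmax hz
  have hloc : IsLocalMax f x := by
    filter_upwards [hE.isOpen.mem_nhds hxT] with y hy using hM y hy
  have hcd : ContDiffAt ℝ 2 f x :=
    ((hf.1 x hxT).contDiffAt (hE.isOpen.mem_nhds hxT)).of_le (WithTop.coe_le_coe.2 le_top)
  obtain ⟨-, hherm, hlev, -⟩ := h1 T hE.isOpen f hf.1
  refine ⟨x, hxT, hM, Matrix.PosSemidef.of_dotProduct_mulVec_nonneg (hherm x hxT).neg ?_⟩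
  intro y
  rw [Matrix.neg_mulVec, dotProduct_neg, star_dot_eq, ← hlev x hxT]
  have := Pool.Agent.Helper8.SP.lev_nonpos hcd hloc (fun i => conj (y i))
  rw [← Complex.ofReal_neg, Complex.zero_le_real]
  linarith

end Pool.Agent.Helper19.HS
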