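import Pool.Agent.Helper15.HS.GoalsC
import Pool.Agent.Helper10.SP.GoalsT
import Pool.Agent.Helper95.Lin.Basics

/-!
# Packet HS-C LPR: algebraic properties of the limit
-/

set_option linter.unusedVariables false

open Complex Metric Set Filter Topology MeasureTheory
open scoped ContDiff ComplexConjugate ComplexOrder Manifold Matrix

namespace Pool.Agent.Helper19.HS

open Pool.Agent.Helper95.Lin Pool.Agent.Helper16.Abund Pool.Agent.Helper92.Orb
  Pool.Agent.Helper10.SP Pool.Agent.Helper95.RK Pool.Agent.Helper57.HS Pool.Agent.Helper15.HS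

universe u v

section mat

variable {n : ℕ}

open scoped MatrixOrder in
theorem facS {H : Matrix (Fin n) (Fin n) ℂ} (h : H.PosDef) :
    ∃ S : Matrix (Fin n) (Fin n) ℂ, H = S * Sᴴ ∧ S.det ≠ 0 := by
  obtain ⟨B, hB⟩ := CStarAlgebra.nonneg_iff_eq_mul_star_self.mp h.posSemidef.nonneg
  refine ⟨B, hB, fun h0 => ?_⟩
  have h1 := h.det_pos
  rw [hB, Matrix.det_mul, h0, zero_mul] at h1
  exact lt_irrefl _ h1

theorem mul_star_diag (S : Matrix (Fin n) (Fin n) ℂ) (a : Fin n) :
    ((S * Sᴴ) a a).re = ∑ p, ‖S a p‖ ^ 2 := by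
  rw [Matrix.mul_apply, Complex.re_sum]
  refine Finset.sum_congr rfl fun p _ => ?_
  rw [Matrix.conjTranspose_apply, RCLike.star_def, Complex.mul_conj, Complex.ofReal_re,
    Complex.normSq_eq_norm_sq]

theorem star_mul_diag (S : Matrix (Fin n) (Fin n) ℂ) (a : Fin n) :
    ((Sᴴ * S) a a).re = ∑ p, ‖S p a‖ ^ 2 := by
  have h := mul_star_diag Sᴴ a
  rw [Matrix.conjTranspose_conjTranspose] at h
  rw [h]
  refine Finset.sum_congr rfl fun p _ => ?_
  rw [Matrix.conjTranspose_apply, norm_star]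

/-- The entries of an `H`-self-adjoint endomorphism are bounded by the trace of its square. -/
theorem mat_bound {H X : Matrix (Fin n) (Fin n) ℂ} (hH : H.PosDef) (hX : X * H = H * Xᴴ) :
    0 ≤ (Matrix.trace (X * X)).re ∧ ∀ a c, ‖X a c‖ ^ 2 ≤
      (H a a).re * ((H⁻¹) c c).re * (Matrix.trace (X * X)).re := by
  obtain ⟨S, hS, hdet⟩ := facS hH
  have hu : IsUnit S.det := hdet.isUnit
  have huH : IsUnit (Sᴴ).det := by
    rw [Matrix.det_conjTranspose]
    exact hu.star
  have hSS : S⁻¹ * S = 1 := Matrix.nonsing_inv_mul _ hu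
  have hSS' : S * S⁻¹ = 1 := Matrix.mul_nonsing_inv _ hu
  have hSH' : Sᴴ * (Sᴴ)⁻¹ = 1 := Matrix.mul_nonsing_inv _ huH
  set Y : Matrix (Fin n) (Fin n) ℂ := S⁻¹ * X * S with hY
  have hYh : Yᴴ = Y := by
    have h1 : Y = S⁻¹ * (X * (S * Sᴴ)) * (Sᴴ)⁻¹ := by
      rw [hY]
      calc S⁻¹ * X * S = S⁻¹ * X * S * 1 := by rw [mul_one]
        _ = S⁻¹ * X * S * (Sᴴ * (Sᴴ)⁻¹) := by rw [hSH']
        _ = _ := by simp only [Matrix.mul_assoc]
    have h2 : Yᴴ = S⁻¹ * ((S * Sᴴ) * Xᴴ) * (Sᴴ)⁻¹ := by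
      rw [hY, Matrix.conjTranspose_mul, Matrix.conjTranspose_mul, Matrix.conjTranspose_nonsing_inv]
      calc Sᴴ * (Xᴴ * (Sᴴ)⁻¹) = 1 * (Sᴴ * (Xᴴ * (Sᴴ)⁻¹)) := by rw [one_mul]
        _ = (S⁻¹ * S) * (Sᴴ * (Xᴴ * (Sᴴ)⁻¹)) := by rw [hSS]
        _ = _ := by simp only [Matrix.mul_assoc]
    rw [h2, h1, ← hS, hX]
  have hXY : X = S * Y * S⁻¹ := by
    rw [hY]
    calc X = 1 * X * 1 := by rw [one_mul, mul_one]
      _ = (S * S⁻¹) * X * (S * S⁻¹) := by rw [hSS']
      _ = _ := by simp only [Matrix.mul_assoc]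
  have htr : (Matrix.trace (X * X)).re = ∑ p, ∑ q, ‖Y p q‖ ^ 2 := by
    have h1 : X * X = S * (Y * Y * S⁻¹) := by
      rw [hXY]
      calc S * Y * S⁻¹ * (S * Y * S⁻¹) = S * Y * (S⁻¹ * S) * Y * S⁻¹ := by
            simp only [Matrix.mul_assoc]
        _ = _ := by rw [hSS]; simp only [Matrix.mul_assoc, mul_one]
    have h2 : Matrix.trace (X * X) = Matrix.trace (Y * Yᴴ) := by
      rw [h1, Matrix.trace_mul_comm, Matrix.mul_assoc (Y * Y), hSS, mul_one, hYh]
    rw [h2, Matrix.trace, Complex.re_sum]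
    refine Finset.sum_congr rfl fun p _ => ?_
    rw [Matrix.diag_apply, mul_star_diag]
  refine ⟨htr ▸ Finset.sum_nonneg fun p _ => Finset.sum_nonneg fun q _ => by positivity, ?_⟩
  intro a c
  have hHa : (H a a).re = ∑ p, ‖S a p‖ ^ 2 := by rw [hS, mul_star_diag]
  have hHc : ((H⁻¹) c c).re = ∑ q, ‖S⁻¹ q c‖ ^ 2 := by
    rw [hS, Matrix.mul_inv_rev, ← Matrix.conjTranspose_nonsing_inv, star_mul_diag]
  rw [htr, hHa, hHc]
  have hXe : X a c = ∑ pq : Fin n × Fin n, S a pq.1 * S⁻¹ pq.2 c * Y pq.1 pq.2 := by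
    have : X a c = ∑ q, ∑ p, S a p * Y p q * S⁻¹ q c := by
      conv_lhs => rw [hXY]
      simp only [Matrix.mul_apply, Finset.sum_mul]
    rw [this, Finset.sum_comm, Fintype.sum_prod_type]
    refine Finset.sum_congr rfl fun p _ => Finset.sum_congr rfl fun q _ => ?_
    ring
  have h1 : ‖X a c‖ ≤ ∑ pq : Fin n × Fin n, (‖S a pq.1‖ * ‖S⁻¹ pq.2 c‖) * ‖Y pq.1 pq.2‖ := by
    rw [hXe]
    refine (norm_sum_le _ _).trans (Finset.sum_le_sum fun pq _ => ?_)
    rw [norm_mul, norm_mul]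
  have h2 : ‖X a c‖ ^ 2 ≤
      (∑ pq : Fin n × Fin n, (‖S a pq.1‖ * ‖S⁻¹ pq.2 c‖) * ‖Y pq.1 pq.2‖) ^ 2 :=
    pow_le_pow_left₀ (norm_nonneg _) h1 2
  refine h2.trans ((Finset.sum_mul_sq_le_sq_mul_sq _ _ _).trans (le_of_eq ?_))
  congr 1
  · rw [Fintype.sum_prod_type, Finset.sum_mul_sum]
    refine Finset.sum_congr rfl fun p _ => Finset.sum_congr rfl fun q _ => ?_
    rw [mul_pow]
  · rw [Fintype.sum_prod_type]

theorem hermi_ext {A A' : Matrix (Fin n) (Fin n) ℂ} (h : ∀ u v, hermi A u v = hermi A' u v) :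
    A = A' := by
  have h0 : ∀ (B : Matrix (Fin n) (Fin n) ℂ) (i j : Fin n),
      hermi B (Pi.single i 1) (Pi.single j 1) = B i j := by
    intro B i j
    unfold hermi
    rw [Finset.sum_eq_single i]
    · rw [Finset.sum_eq_single j]
      · simp
      · intro b _ hb
        simp [Pi.single_eq_of_ne hb]
      · simp
    · intro b _ hb
      refine Finset.sum_eq_zero fun c _ => ?_
      simp [Pi.single_eq_of_ne hb]
    · simp
  ext i j
  rw [← h0 A, ← h0 A', h]

/-- the matrix of a linear map acting on rows -/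
noncomputable def JM (L : Cn n →L[ℂ] Cn n) : Matrix (Fin n) (Fin n) ℂ :=
  Matrix.of fun i p => L (Pi.single i 1) p

theorem L_eq (L : Cn n →L[ℂ] Cn n) (w : Cn n) (p : Fin n) : L w p = ∑ i, w i * JM L i p := by
  have h : w = ∑ i, w i • (Pi.single i (1 : ℂ) : Cn n) := by
    conv_lhs => rw [← Finset.univ_sum_single w]
    refine Finset.sum_congr rfl fun i _ => ?_
    rw [← Pi.single_smul, smul_eq_mul, mul_one]
  conv_lhs => rw [h]
  rw [map_sum, Finset.sum_apply]
  refine Finset.sum_congr rfl fun i _ => ?_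
  rw [map_smul, Pi.smul_apply, smul_eq_mul]
  rfl

theorem hermi_J (L : Cn n →L[ℂ] Cn n) (A : Matrix (Fin n) (Fin n) ℂ) (u v : Cn n) :
    hermi A (L u) (L v) = hermi (JM L * A * (JM L)ᴴ) u v := by
  unfold hermi
  simp only [L_eq, Matrix.mul_apply, Matrix.conjTranspose_apply, map_sum, map_mul, RCLike.star_def,
    Finset.sum_mul, Finset.mul_sum]
  have e1 : ∀ f : Fin n → Fin n → Fin n → Fin n → ℂ,
      ∑ p, ∑ q, ∑ j, ∑ i, f p q i j = ∑ i, ∑ j, ∑ q, ∑ p, f p q i j := by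
    intro f
    calc ∑ p, ∑ q, ∑ j, ∑ i, f p q i j = ∑ p, ∑ q, ∑ i, ∑ j, f p q i j := by
          refine Finset.sum_congr rfl fun p _ => Finset.sum_congr rfl fun q _ => ?_
          exact Finset.sum_comm
      _ = ∑ p, ∑ i, ∑ q, ∑ j, f p q i j := by
          refine Finset.sum_congr rfl fun p _ => ?_
          exact Finset.sum_comm
      _ = ∑ i, ∑ p, ∑ q, ∑ j, f p q i j := Finset.sum_comm
      _ = ∑ i, ∑ p, ∑ j, ∑ q, f p q i j := by
          refine Finset.sum_congr rfl fun i _ => Finset.sum_congr rfl fun p _ => ?_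
          exact Finset.sum_comm
      _ = ∑ i, ∑ j, ∑ p, ∑ q, f p q i j := by
          refine Finset.sum_congr rfl fun i _ => ?_
          exact Finset.sum_comm
      _ = _ := by
          refine Finset.sum_congr rfl fun i _ => Finset.sum_congr rfl fun j _ => ?_
          exact Finset.sum_comm
  refine Eq.trans ?_ ((e1 fun p q i j => A p q * (u i * JM L i p) * (conj (v j) * conj (JM L j q))).trans ?_)
  · refine Finset.sum_congr rfl fun p _ => Finset.sum_congr rfl fun q _ => ?_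
    refine Finset.sum_congr rfl fun j _ => ?_
    try rfl
  · refine Finset.sum_congr rfl fun i _ => Finset.sum_congr rfl fun j _ => ?_
    refine Finset.sum_congr rfl fun q _ => Finset.sum_congr rfl fun p _ => ?_
    ring

theorem hermi_norm_le (A : Matrix (Fin n) (Fin n) ℂ) (u v : Cn n) :
    ‖hermi A u v‖ ≤ (∑ i, ∑ j, ‖A i j‖) * (‖u‖ * ‖v‖) := by
  unfold hermi
  refine (norm_sum_le _ _).trans ?_
  rw [Finset.sum_mul]
  refine Finset.sum_le_sum fun i _ => ?_
  refine (norm_sum_le _ _).trans ?_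
  rw [Finset.sum_mul]
  refine Finset.sum_le_sum fun j _ => ?_
  rw [norm_mul, norm_mul, RCLike.norm_conj, mul_assoc]
  refine mul_le_mul_of_nonneg_left ?_ (norm_nonneg _)
  exact mul_le_mul (norm_le_pi_norm u i) (norm_le_pi_norm v j) (norm_nonneg _) (norm_nonneg _)

theorem hermi_sub_left (A B : Matrix (Fin n) (Fin n) ℂ) (u v : Cn n) :
    hermi (A - B) u v = hermi A u v - hermi B u v := by
  unfold hermi
  simp only [Matrix.sub_apply, sub_mul, Finset.sum_sub_distrib]

/-- the form `H Q⁻¹ H` is natural -/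
theorem nat_form {J A A' B B' : Matrix (Fin n) (Fin n) ℂ} (hA : A = J * A' * Jᴴ)
    (hB : B = J * B' * Jᴴ) (hd : B.det ≠ 0) : A * B⁻¹ * A = J * (A' * B'⁻¹ * A') * Jᴴ := by
  have hd' : J.det ≠ 0 ∧ B'.det ≠ 0 ∧ (Jᴴ).det ≠ 0 := by
    rw [hB, Matrix.det_mul, Matrix.det_mul] at hd
    exact ⟨left_ne_zero_of_mul (left_ne_zero_of_mul hd),
      right_ne_zero_of_mul (left_ne_zero_of_mul hd), right_ne_zero_of_mul hd⟩
  have h1 : J⁻¹ * J = 1 := Matrix.nonsing_inv_mul _ hd'.1.isUnit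
  have h2 : Jᴴ * (Jᴴ)⁻¹ = 1 := Matrix.mul_nonsing_inv _ hd'.2.2.isUnit
  rw [hB, hA, Matrix.mul_inv_rev, Matrix.mul_inv_rev]
  calc J * A' * Jᴴ * ((Jᴴ)⁻¹ * (B'⁻¹ * J⁻¹)) * (J * A' * Jᴴ)
      = J * A' * (Jᴴ * (Jᴴ)⁻¹) * B'⁻¹ * (J⁻¹ * J) * A' * Jᴴ := by simp only [Matrix.mul_assoc]
    _ = _ := by rw [h1, h2]; simp only [Matrix.mul_assoc, mul_one, one_mul]

/-- the trace of the product of two Hermitian matrices is real -/
theorem trace_real {A B : Matrix (Fin n) (Fin n) ℂ} (hA : A.IsHermitian) (hB : B.IsHermitian) :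
    (Matrix.trace (A * B)).im = 0 := by
  have h : conj (Matrix.trace (A * B)) = Matrix.trace (A * B) := by
    have h1 : Matrix.trace ((A * B)ᴴ) = star (Matrix.trace (A * B)) := Matrix.trace_conjTranspose _
    rw [Matrix.conjTranspose_mul, hA.eq, hB.eq, Matrix.trace_mul_comm] at h1
    exact h1.symm
  exact Complex.conj_eq_iff_im.1 h

end mat

section key

variable {n : ℕ}

theorem keyZ {T U : Set (Cn n)} (hU : IsOpen U) (hUT : U ⊆ T) {d : ℕ → Cn n → ℝ}
    (hd : ∀ j, ContinuousOn (d j) T) (hd0 : ∀ j, ∀ x ∈ T, 0 ≤ d j x)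
    (low : ∀ C ⊆ T, IsCompact C → 0 < volume C → ∃ c > 0, ∀ j, c ≤ ∫ x in C, d j x)
    {F : Cn n → ℝ} (hF : ContinuousOn F U)
    (h : ∀ C ⊆ U, IsCompact C → ∃ (M : ℝ) (E : ℕ → Cn n → ℝ), (∀ j, ContinuousOn (E j) C) ∧
      (∀ j, ∀ x ∈ C, F x ≤ M * E j x) ∧
      Tendsto (fun j => ∫ x in C, d j x * E j x) atTop (𝓝 0)) :
    ∀ x ∈ U, F x ≤ 0 := by
  intro x₀ hx₀
  by_contra hcon
  push Not at hcon
  have hev : ∀ᶠ x in 𝓝 x₀, F x₀ / 2 < F x ∧ x ∈ U := by
    refine Filter.Eventually.and ?_ (hU.mem_nhds hx₀)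
    exact (hF.continuousAt (hU.mem_nhds hx₀)).eventually (lt_mem_nhds (by linarith))
  obtain ⟨r, hr, hball⟩ := Metric.nhds_basis_closedBall.mem_iff.1 hev
  have hCU : closedBall x₀ r ⊆ U := fun x hx => (hball hx).2
  have hCc : IsCompact (closedBall x₀ r) := isCompact_closedBall _ _
  have hvol : 0 < volume (closedBall x₀ r) := measure_closedBall_pos _ _ hr
  obtain ⟨c, hc, hcl⟩ := low _ (hCU.trans hUT) hCc hvol
  obtain ⟨M, E, hEc, hFE, hlim⟩ := h _ hCU hCc
  have key : ∀ j, F x₀ / 2 * c ≤ M * ∫ x in closedBall x₀ r, d j x * E j x := by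
    intro j
    have hdc := (hd j).mono (hCU.trans hUT)
    have i1 : IntegrableOn (d j) (closedBall x₀ r) := hdc.integrableOn_compact hCc
    have i2 : IntegrableOn (fun x => d j x * E j x) (closedBall x₀ r) :=
      (hdc.mul (hEc j)).integrableOn_compact hCc
    calc F x₀ / 2 * c ≤ F x₀ / 2 * ∫ x in closedBall x₀ r, d j x :=
          mul_le_mul_of_nonneg_left (hcl j) (by linarith)
      _ = ∫ x in closedBall x₀ r, F x₀ / 2 * d j x := (integral_const_mul _ _).symm
      _ ≤ ∫ x in closedBall x₀ r, M * (d j x * E j x) := by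
          refine setIntegral_mono_on (i1.const_mul _) (i2.const_mul _) measurableSet_closedBall
            fun x hx => ?_
          have h1 := hd0 j x (hUT (hCU hx))
          have h2 := hFE j x hx
          have h3 := (hball hx).1
          have h4 : F x₀ / 2 * d j x ≤ F x * d j x := mul_le_mul_of_nonneg_right h3.le h1
          have h5 : F x * d j x ≤ M * E j x * d j x := mul_le_mul_of_nonneg_right h2 h1
          linarith
      _ = _ := integral_const_mul _ _
  have h6 := ge_of_tendsto' (hlim.const_mul M) key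
  rw [mul_zero] at h6
  have h7 : 0 < F x₀ / 2 * c := by positivity
  linarith

theorem bddM {m : ℕ} {C : Set (Cn n)} (hC : IsCompact C) {f : Cn n → Matrix (Fin m) (Fin m) ℂ}
    (hf : ∀ a c, ContinuousOn (fun x => f x a c) C) :
    ∃ K : ℝ, 0 ≤ K ∧ ∀ x ∈ C, ∀ a c, ‖f x a c‖ ≤ K := by
  have hc : ContinuousOn (fun x => ∑ a, ∑ c, ‖f x a c‖) C :=
    continuousOn_finsetSum _ fun a _ => continuousOn_finsetSum _ fun c _ => (hf a c).norm
  obtain ⟨K, hK⟩ := hC.exists_bound_of_continuousOn hc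
  refine ⟨max K 0, le_max_right _ _, fun x hx a c => ?_⟩
  refine le_trans ?_ (le_max_left _ _)
  refine le_trans ?_ ((le_abs_self _).trans (hK x hx))
  refine le_trans ?_ (Finset.single_le_sum (f := fun a => ∑ c, ‖f x a c‖)
    (fun i _ => Finset.sum_nonneg fun j _ => norm_nonneg _) (Finset.mem_univ a))
  exact Finset.single_le_sum (f := fun c => ‖f x a c‖) (fun i _ => norm_nonneg _)
    (Finset.mem_univ c)

/-- the distance of two matrix functions -/
noncomputable def Df {m : ℕ} (B P : Cn n → Matrix (Fin m) (Fin m) ℂ) (x : Cn n) : ℝ :=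
  ∑ a, ∑ c, ‖B x a c - P x a c‖

theorem Df_nonneg {m : ℕ} (B P : Cn n → Matrix (Fin m) (Fin m) ℂ) (x : Cn n) : 0 ≤ Df B P x :=
  Finset.sum_nonneg fun _ _ => Finset.sum_nonneg fun _ _ => norm_nonneg _

theorem Df_row {m : ℕ} (B P : Cn n → Matrix (Fin m) (Fin m) ℂ) (x : Cn n) (a : Fin m) :
    ∑ c, ‖B x a c - P x a c‖ ≤ Df B P x :=
  Finset.single_le_sum (f := fun a => ∑ c, ‖B x a c - P x a c‖)
    (fun _ _ => Finset.sum_nonneg fun _ _ => norm_nonneg _) (Finset.mem_univ a)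

theorem Df_col {m : ℕ} (B P : Cn n → Matrix (Fin m) (Fin m) ℂ) (x : Cn n) (c : Fin m) :
    ∑ a, ‖B x a c - P x a c‖ ≤ Df B P x :=
  Finset.sum_le_sum fun a _ => Finset.single_le_sum (f := fun c => ‖B x a c - P x a c‖)
    (fun _ _ => norm_nonneg _) (Finset.mem_univ c)

theorem Df_ent {m : ℕ} (B P : Cn n → Matrix (Fin m) (Fin m) ℂ) (x : Cn n) (a c : Fin m) :
    ‖B x a c - P x a c‖ ≤ Df B P x :=
  (Finset.single_le_sum (f := fun c => ‖B x a c - P x a c‖)
    (fun _ _ => norm_nonneg _) (Finset.mem_univ c)).trans (Df_row B P x a)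

theorem Df_diag {m : ℕ} (B P : Cn n → Matrix (Fin m) (Fin m) ℂ) (x : Cn n) :
    ∑ a, ‖B x a a - P x a a‖ ≤ Df B P x :=
  Finset.sum_le_sum fun a _ => Finset.single_le_sum (f := fun c => ‖B x a c - P x a c‖)
    (fun _ _ => norm_nonneg _) (Finset.mem_univ a)

theorem Df_cont {m : ℕ} {C : Set (Cn n)} {B P : Cn n → Matrix (Fin m) (Fin m) ℂ}
    (hB : ∀ a c, ContinuousOn (fun x => B x a c) C)
    (hP : ∀ a c, ContinuousOn (fun x => P x a c) C) : ContinuousOn (Df B P) C :=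
  continuousOn_finsetSum _ fun a _ => continuousOn_finsetSum _ fun c _ => ((hB a c).sub (hP a c)).norm

theorem Df_le {m : ℕ} {B P : Cn n → Matrix (Fin m) (Fin m) ℂ} {x : Cn n} {K : ℝ}
    (hB : ∀ a c, ‖B x a c‖ ≤ K) (hP : ∀ a c, ‖P x a c‖ ≤ K) :
    Df B P x ≤ m * m * (2 * K) := by
  unfold Df
  calc ∑ a, ∑ c, ‖B x a c - P x a c‖ ≤ ∑ _a : Fin m, ∑ _c : Fin m, (2 * K) := by
        refine Finset.sum_le_sum fun a _ => Finset.sum_le_sum fun c _ => ?_
        have h1 := norm_sub_le (B x a c) (P x a c)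
        have h2 := hB a c
        have h3 := hP a c
        linarith
    _ = _ := by
        simp only [Finset.sum_const, Finset.card_univ, Fintype.card_fin, nsmul_eq_mul]
        ring

theorem mulDf_right {m : ℕ} {B P : Cn n → Matrix (Fin m) (Fin m) ℂ} {x : Cn n} {K : ℝ}
    {Z : Matrix (Fin m) (Fin m) ℂ} (hZ : ∀ a c, ‖Z a c‖ ≤ K) (a c : Fin m) :
    ‖((B x - P x) * Z) a c‖ ≤ K * ∑ p, ‖B x a p - P x a p‖ := by
  rw [Matrix.mul_apply, Finset.mul_sum]
  refine (norm_sum_le _ _).trans (Finset.sum_le_sum fun p _ => ?_)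
  rw [norm_mul, Matrix.sub_apply, mul_comm]
  exact mul_le_mul_of_nonneg_right (hZ p c) (norm_nonneg _)

theorem mulDf_left {m : ℕ} {B P : Cn n → Matrix (Fin m) (Fin m) ℂ} {x : Cn n} {K : ℝ}
    {Z : Matrix (Fin m) (Fin m) ℂ} (hZ : ∀ a c, ‖Z a c‖ ≤ K) (a c : Fin m) :
    ‖(Z * (B x - P x)) a c‖ ≤ K * ∑ p, ‖B x p c - P x p c‖ := by
  rw [Matrix.mul_apply, Finset.mul_sum]
  refine (norm_sum_le _ _).trans (Finset.sum_le_sum fun p _ => ?_)
  rw [norm_mul, Matrix.sub_apply]
  exact mul_le_mul_of_nonneg_right (hZ a p) (norm_nonneg _)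

end key

section ctx

variable {n : ℕ}

/-- the data used in the proof -/
structure Ctx (T : Set (Cn n)) (H : Cn n → Matrix (Fin n) (Fin n) ℂ) (d : ℕ → Cn n → ℝ)
    (B : ℕ → Cn n → Matrix (Fin n) (Fin n) ℂ) (P : Cn n → Matrix (Fin n) (Fin n) ℂ) : Prop where
  op : IsOpen T
  dc : ∀ j, ContinuousOn (d j) T
  d0 : ∀ j, ∀ x ∈ T, 0 ≤ d j x
  Bc : ∀ j a c, ContinuousOn (fun x => B j x a c) T
  Pc : ∀ a c, ContinuousOn (fun x => P x a c) T
  Hc : ∀ a c, ContinuousOn (fun x => H x a c) T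
  Ic : ∀ a c, ContinuousOn (fun x => (H x)⁻¹ a c) T
  pd : ∀ x ∈ T, (H x).PosDef
  Bb : ∀ C ⊆ T, IsCompact C → ∃ K : ℝ, ∀ j, ∀ x ∈ C, ∀ a c, ‖B j x a c‖ ≤ K
  conv : ∀ C ⊆ T, IsCompact C → ∀ a c,
    Tendsto (fun j => ∫ x in C, d j x * ‖B j x a c - P x a c‖) atTop (𝓝 0)
  low : ∀ C ⊆ T, IsCompact C → 0 < volume C → ∃ c > 0, ∀ j, c ≤ ∫ x in C, d j x
  BH : ∀ j, ∀ x ∈ T, B j x * H x = H x * (B j x)ᴴ

variable {T : Set (Cn n)} {H : Cn n → Matrix (Fin n) (Fin n) ℂ} {d : ℕ → Cn n → ℝ}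
  {B : ℕ → Cn n → Matrix (Fin n) (Fin n) ℂ} {P : Cn n → Matrix (Fin n) (Fin n) ℂ}

theorem Ctx.lim (h : Ctx T H d B P) {C : Set (Cn n)} (hCT : C ⊆ T) (hC : IsCompact C) :
    Tendsto (fun j => ∫ x in C, d j x * Df (B j) P x) atTop (𝓝 0) := by
  have h1 : ∀ j, ∫ x in C, d j x * Df (B j) P x =
      ∑ a, ∑ c, ∫ x in C, d j x * ‖B j x a c - P x a c‖ := by
    intro j
    have hi : ∀ a c, IntegrableOn (fun x => d j x * ‖B j x a c - P x a c‖) C := fun a c =>
      (((h.dc j).mul ((h.Bc j a c).sub (h.Pc a c)).norm).mono hCT).integrableOn_compact hC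
    unfold Df
    simp only [Finset.mul_sum]
    rw [integral_finsetSum _ fun a _ => integrable_finsetSum _ fun c _ => hi a c]
    refine Finset.sum_congr rfl fun a _ => ?_
    rw [integral_finsetSum _ fun c _ => hi a c]
  simp only [h1]
  have h2 : Tendsto (fun j => ∑ a, ∑ c, ∫ x in C, d j x * ‖B j x a c - P x a c‖) atTop
      (𝓝 (∑ _a : Fin n, ∑ _c : Fin n, (0 : ℝ))) :=
    tendsto_finsetSum _ fun a _ => tendsto_finsetSum _ fun c _ => h.conv C hCT hC a c
  simpa using h2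

theorem Ctx.bd (h : Ctx T H d B P) {C : Set (Cn n)} (hCT : C ⊆ T) (hC : IsCompact C) :
    ∃ K : ℝ, 0 ≤ K ∧ (∀ j, ∀ x ∈ C, ∀ a c, ‖B j x a c‖ ≤ K) ∧ ∀ x ∈ C, ∀ a c,
      ‖P x a c‖ ≤ K ∧ ‖H x a c‖ ≤ K ∧ ‖(H x)⁻¹ a c‖ ≤ K := by
  obtain ⟨K₁, hK₁⟩ := h.Bb C hCT hC
  obtain ⟨K₂, hK₂0, hK₂⟩ := bddM hC (f := P) fun a c => (h.Pc a c).mono hCT
  obtain ⟨K₃, hK₃0, hK₃⟩ := bddM hC (f := H) fun a c => (h.Hc a c).mono hCT
  obtain ⟨K₄, hK₄0, hK₄⟩ := bddM hC (f := fun x => (H x)⁻¹) fun a c => (h.Ic a c).mono hCT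
  refine ⟨max K₁ (K₂ + K₃ + K₄), ?_, ?_, ?_⟩
  · refine le_trans ?_ (le_max_right _ _)
    positivity
  · exact fun j x hx a c => (hK₁ j x hx a c).trans (le_max_left _ _)
  · intro x hx a c
    have h2 := hK₂ x hx a c
    have h3 := hK₃ x hx a c
    have h4 := hK₄ x hx a c
    exact ⟨(by linarith : _ ≤ K₂ + K₃ + K₄).trans (le_max_right _ _),
      (by linarith : _ ≤ K₂ + K₃ + K₄).trans (le_max_right _ _),
      (by linarith : _ ≤ K₂ + K₃ + K₄).trans (le_max_right _ _)⟩

theorem Ctx.key (h : Ctx T H d B P) {U : Set (Cn n)} (hU : IsOpen U) (hUT : U ⊆ T)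
    {F : Cn n → ℝ} (hF : ContinuousOn F U)
    (h' : ∀ C ⊆ U, IsCompact C → ∃ (M : ℝ) (E : ℕ → Cn n → ℝ), (∀ j, ContinuousOn (E j) C) ∧
      (∀ j, ∀ x ∈ C, F x ≤ M * E j x) ∧
      Tendsto (fun j => ∫ x in C, d j x * E j x) atTop (𝓝 0)) :
    ∀ x ∈ U, F x ≤ 0 :=
  keyZ hU hUT h.dc h.d0 h.low hF h'

theorem cont_mul {C : Set (Cn n)} {X Y : Cn n → Matrix (Fin n) (Fin n) ℂ}
    (hX : ∀ a c, ContinuousOn (fun x => X x a c) C)
    (hY : ∀ a c, ContinuousOn (fun x => Y x a c) C) (a c : Fin n) :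
    ContinuousOn (fun x => (X x * Y x) a c) C := by
  simp only [Matrix.mul_apply]
  exact continuousOn_finsetSum _ fun p _ => (hX a p).mul (hY p c)

theorem cont_star {C : Set (Cn n)} {X : Cn n → Matrix (Fin n) (Fin n) ℂ}
    (hX : ∀ a c, ContinuousOn (fun x => X x a c) C) (a c : Fin n) :
    ContinuousOn (fun x => ((X x)ᴴ) a c) C := by
  simp only [Matrix.conjTranspose_apply]
  exact (hX c a).star

theorem cont_trace {C : Set (Cn n)} {X : Cn n → Matrix (Fin n) (Fin n) ℂ}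
    (hX : ∀ a c, ContinuousOn (fun x => X x a c) C) :
    ContinuousOn (fun x => Matrix.trace (X x)) C := by
  simp only [Matrix.trace, Matrix.diag_apply]
  exact continuousOn_finsetSum _ fun p _ => hX p p

/-- sums of two error terms -/
theorem Ctx.lim_add (h : Ctx T H d B P) {C : Set (Cn n)} (hCT : C ⊆ T) (hC : IsCompact C)
    {E : ℕ → Cn n → ℝ} (hE : ∀ j, ContinuousOn (E j) C)
    (hl : Tendsto (fun j => ∫ x in C, d j x * E j x) atTop (𝓝 0)) :
    Tendsto (fun j => ∫ x in C, d j x * (Df (B j) P x + E j x)) atTop (𝓝 0) := by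
  have h1 := (h.lim hCT hC).add hl
  rw [add_zero] at h1
  refine h1.congr fun j => ?_
  rw [← integral_add]
  · refine integral_congr_ae (Filter.Eventually.of_forall fun x => ?_)
    simp only
    ring
  · exact (((h.dc j).mono hCT).mul (Df_cont (fun a c => (h.Bc j a c).mono hCT)
      fun a c => (h.Pc a c).mono hCT)).integrableOn_compact hC
  · exact (((h.dc j).mono hCT).mul (hE j)).integrableOn_compact hC

theorem Ctx.proj (h : Ctx T H d B P)
    (hsq : ∀ C ⊆ T, IsCompact C → Tendsto (fun j => ∫ x in C, d j x * (Matrix.trace (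
      (B j x * B j x - B j x) * (B j x * B j x - B j x))).re) atTop (𝓝 0)) :
    ∀ x ∈ T, P x * P x = P x := by
  have hall : ∀ a c, ∀ x ∈ T, ‖(P x * P x) a c - P x a c‖ ^ 2 ≤ 0 := by
    intro a c
    refine h.key h.op subset_rfl ?_ ?_
    · exact (((cont_mul h.Pc h.Pc a c).sub (h.Pc a c)).norm).pow 2
    intro C hCT hC
    obtain ⟨K, hK0, hKB, hKP⟩ := h.bd hCT hC
    set M : ℝ := 2 * K ^ 2 + 2 * (2 * K + 1) ^ 2 * (n * n * (2 * K)) with hM
    have hXc : ∀ j a c, ContinuousOn (fun x => (B j x * B j x - B j x) a c) C := by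
      intro j a c
      simp only [Matrix.sub_apply]
      exact ((cont_mul (h.Bc j) (h.Bc j) a c).sub (h.Bc j a c)).mono hCT
    have htc : ∀ j, ContinuousOn (fun x => (Matrix.trace (
        (B j x * B j x - B j x) * (B j x * B j x - B j x))).re) C := fun j =>
      Complex.continuous_re.comp_continuousOn (cont_trace (cont_mul (hXc j) (hXc j)))
    refine ⟨M, fun j x => Df (B j) P x + (Matrix.trace (
      (B j x * B j x - B j x) * (B j x * B j x - B j x))).re, ?_, ?_,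
      h.lim_add hCT hC htc (hsq C hCT hC)⟩
    · intro j
      exact (Df_cont (fun a c => (h.Bc j a c).mono hCT) fun a c => (h.Pc a c).mono hCT).add (htc j)
    · intro j x hx
      have hxT := hCT hx
      set D := Df (B j) P x with hD
      have hD0 : 0 ≤ D := Df_nonneg _ _ _
      set X := B j x * B j x - B j x with hX
      have hXH : X * H x = H x * Xᴴ := by
        rw [hX, Matrix.sub_mul, Matrix.conjTranspose_sub, Matrix.mul_sub, Matrix.conjTranspose_mul,
          Matrix.mul_assoc, h.BH j x hxT, ← Matrix.mul_assoc, h.BH j x hxT, Matrix.mul_assoc]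
      obtain ⟨ht0, ht⟩ := mat_bound (h.pd x hxT) hXH
      have hXac : ‖X a c‖ ^ 2 ≤ K ^ 2 * (Matrix.trace (X * X)).re := by
        refine (ht a c).trans (mul_le_mul_of_nonneg_right ?_ ht0)
        have e1 := (Complex.abs_re_le_norm (H x a a)).trans (hKP x hx a a).2.1
        have e2 := (Complex.abs_re_le_norm ((H x)⁻¹ c c)).trans (hKP x hx c c).2.2
        calc (H x a a).re * ((H x)⁻¹ c c).re ≤ |(H x a a).re * ((H x)⁻¹ c c).re| := le_abs_self _
          _ = |(H x a a).re| * |((H x)⁻¹ c c).re| := abs_mul _ _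
          _ ≤ K * K := mul_le_mul e1 e2 (abs_nonneg _) hK0
          _ = K ^ 2 := by ring
      have hid : (P x * P x) a c - P x a c = X a c + ((B j x - P x) a c -
          ((B j x * (B j x - P x)) a c + ((B j x - P x) * P x) a c)) := by
        have : P x * P x - P x = X + ((B j x - P x) -
            (B j x * (B j x - P x) + (B j x - P x) * P x)) := by
          rw [hX, Matrix.mul_sub, Matrix.sub_mul]
          abel
        have := congrFun (congrFun this a) c
        simpa only [Matrix.sub_apply, Matrix.add_apply] using this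
      have hb1 : ‖(B j x - P x) a c‖ ≤ D := Df_ent _ _ _ _ _
      have hb2 : ‖(B j x * (B j x - P x)) a c‖ ≤ K * D :=
        (mulDf_left (hKB j x hx) a c).trans (mul_le_mul_of_nonneg_left (Df_col _ _ _ _) hK0)
      have hb3 : ‖((B j x - P x) * P x) a c‖ ≤ K * D :=
        (mulDf_right (fun a c => (hKP x hx a c).1) a c).trans
          (mul_le_mul_of_nonneg_left (Df_row _ _ _ _) hK0)
      have hnorm : ‖(P x * P x) a c - P x a c‖ ≤ ‖X a c‖ + (2 * K + 1) * D := by
        rw [hid]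
        refine (norm_add_le _ _).trans ?_
        have h4 := norm_sub_le ((B j x - P x) a c)
          ((B j x * (B j x - P x)) a c + ((B j x - P x) * P x) a c)
        have h5 := norm_add_le ((B j x * (B j x - P x)) a c) (((B j x - P x) * P x) a c)
        linarith
      have hDle : D ≤ n * n * (2 * K) := Df_le (hKB j x hx) fun a c => (hKP x hx a c).1
      have h6 : ‖(P x * P x) a c - P x a c‖ ^ 2 ≤ 2 * ‖X a c‖ ^ 2 + 2 * ((2 * K + 1) * D) ^ 2 := by
        have h7 := pow_le_pow_left₀ (norm_nonneg _) hnorm 2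
        nlinarith [sq_nonneg (‖X a c‖ - (2 * K + 1) * D)]
      have h8 : ((2 * K + 1) * D) ^ 2 ≤ (2 * K + 1) ^ 2 * (n * n * (2 * K)) * D := by
        have : D * D ≤ n * n * (2 * K) * D := mul_le_mul_of_nonneg_right hDle hD0
        have h9 : 0 ≤ (2 * K + 1) ^ 2 := by positivity
        nlinarith
      set t := (Matrix.trace (X * X)).re with htd
      have hn : (0 : ℝ) ≤ n * n * (2 * K) := by positivity
      have h10 : 2 * ‖X a c‖ ^ 2 + 2 * ((2 * K + 1) * D) ^ 2 ≤ M * (D + t) := by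
        have h11 : 0 ≤ 2 * K ^ 2 * D := by positivity
        have h12 : 0 ≤ 2 * (2 * K + 1) ^ 2 * (n * n * (2 * K)) * t := by positivity
        rw [hM]
        nlinarith
      exact h6.trans h10
  intro x hx
  ext a c
  have h1 := hall a c x hx
  have h2 : ‖(P x * P x) a c - P x a c‖ = 0 := by
    have := sq_nonneg ‖(P x * P x) a c - P x a c‖
    exact pow_eq_zero_iff (two_ne_zero) |>.1 (le_antisymm h1 this)
  exact sub_eq_zero.1 (norm_eq_zero.1 h2)

theorem Ctx.tr (h : Ctx T H d B P) (hre : ∀ j, ∀ x ∈ T, (Matrix.trace (B j x)).im = 0) (k : ℕ)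
    (htr : ∀ C ⊆ T, IsCompact C → Tendsto (fun j => ∫ x in C, d j x *
      ((Matrix.trace (B j x)).re - k) ^ 2) atTop (𝓝 0)) :
    ∀ x ∈ T, Matrix.trace (P x) = k := by
  have hall : ∀ x ∈ T, ‖Matrix.trace (P x) - k‖ ^ 2 ≤ 0 := by
    refine h.key h.op subset_rfl ?_ ?_
    · exact (((cont_trace h.Pc).sub continuousOn_const).norm).pow 2
    intro C hCT hC
    obtain ⟨K, hK0, hKB, hKP⟩ := h.bd hCT hC
    have htc : ∀ j, ContinuousOn (fun x => ((Matrix.trace (B j x)).re - k) ^ 2) C := fun j =>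
      ((Complex.continuous_re.comp_continuousOn ((cont_trace (h.Bc j)).mono hCT)).sub
        continuousOn_const).pow 2
    refine ⟨2 * (n * n * (2 * K)) + 2, fun j x => Df (B j) P x +
      ((Matrix.trace (B j x)).re - k) ^ 2, ?_, ?_, h.lim_add hCT hC htc (htr C hCT hC)⟩
    · intro j
      exact (Df_cont (fun a c => (h.Bc j a c).mono hCT) fun a c => (h.Pc a c).mono hCT).add (htc j)
    · intro j x hx
      have hxT := hCT hx
      set D := Df (B j) P x with hD
      have hD0 : 0 ≤ D := Df_nonneg _ _ _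
      have h1 : ‖Matrix.trace (P x) - Matrix.trace (B j x)‖ ≤ D := by
        have e1 : Matrix.trace (P x) - Matrix.trace (B j x) = ∑ a, (P x a a - B j x a a) := by
          simp only [Matrix.trace, Matrix.diag_apply, Finset.sum_sub_distrib]
        rw [e1]
        refine (norm_sum_le _ _).trans ((Finset.sum_le_sum fun a _ => ?_).trans (Df_diag _ _ _))
        rw [norm_sub_rev]
      have h2 : ‖Matrix.trace (B j x) - k‖ = |(Matrix.trace (B j x)).re - k| := by
        have e1 : Matrix.trace (B j x) - k = (((Matrix.trace (B j x)).re - k : ℝ) : ℂ) := by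
          refine Complex.ext ?_ ?_
          · simp
          · simp [hre j x hxT]
        rw [e1, Complex.norm_real, Real.norm_eq_abs]
      have h3 : ‖Matrix.trace (P x) - k‖ ≤ D + |(Matrix.trace (B j x)).re - k| := by
        rw [← h2]
        calc ‖Matrix.trace (P x) - k‖ = ‖(Matrix.trace (P x) - Matrix.trace (B j x)) +
              (Matrix.trace (B j x) - k)‖ := by congr 1; ring
          _ ≤ _ := (norm_add_le _ _).trans (by linarith)
      have h4 := pow_le_pow_left₀ (norm_nonneg _) h3 2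
      have hDle : D ≤ n * n * (2 * K) := Df_le (hKB j x hx) fun a c => (hKP x hx a c).1
      have h5 : D * D ≤ n * n * (2 * K) * D := mul_le_mul_of_nonneg_right hDle hD0
      have h6 := sq_abs ((Matrix.trace (B j x)).re - k)
      set s := |(Matrix.trace (B j x)).re - k| with hs
      have hn : (0 : ℝ) ≤ n * n * (2 * K) := by positivity
      have h7 : (0 : ℝ) ≤ n * n * (2 * K) * s ^ 2 := by positivity
      show ‖Matrix.trace (P x) - k‖ ^ 2 ≤
        (2 * (n * n * (2 * K)) + 2) * (D + ((Matrix.trace (B j x)).re - k) ^ 2)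
      rw [← h6]
      nlinarith [sq_nonneg (D - s)]
  intro x hx
  have h2 : ‖Matrix.trace (P x) - k‖ = 0 :=
    pow_eq_zero_iff (two_ne_zero) |>.1 (le_antisymm (hall x hx) (sq_nonneg _))
  exact sub_eq_zero.1 (norm_eq_zero.1 h2)

theorem Ctx.herm (h : Ctx T H d B P) : ∀ x ∈ T, P x * H x = H x * (P x)ᴴ := by
  have hall : ∀ a c, ∀ x ∈ T, ‖(P x * H x) a c - (H x * (P x)ᴴ) a c‖ ≤ 0 := by
    intro a c
    refine h.key h.op subset_rfl ?_ ?_
    · exact ((cont_mul h.Pc h.Hc a c).sub (cont_mul h.Hc (cont_star h.Pc) a c)).norm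
    intro C hCT hC
    obtain ⟨K, hK0, hKB, hKP⟩ := h.bd hCT hC
    refine ⟨2 * K, fun j x => Df (B j) P x, ?_, ?_, h.lim hCT hC⟩
    · intro j
      exact Df_cont (fun a c => (h.Bc j a c).mono hCT) fun a c => (h.Pc a c).mono hCT
    · intro j x hx
      have hxT := hCT hx
      have hid : (P x * H x) a c - (H x * (P x)ᴴ) a c =
          (H x * (B j x - P x)ᴴ) a c - ((B j x - P x) * H x) a c := by
        have : P x * H x - H x * (P x)ᴴ = H x * (B j x - P x)ᴴ - (B j x - P x) * H x := by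
          rw [Matrix.conjTranspose_sub, Matrix.mul_sub, Matrix.sub_mul, h.BH j x hxT]
          abel
        simpa only [Matrix.sub_apply] using congrFun (congrFun this a) c
      have h1 : ‖((B j x - P x) * H x) a c‖ ≤ K * Df (B j) P x :=
        (mulDf_right (fun a c => (hKP x hx a c).2.1) a c).trans
          (mul_le_mul_of_nonneg_left (Df_row _ _ _ _) hK0)
      have h2 : ‖(H x * (B j x - P x)ᴴ) a c‖ ≤ K * Df (B j) P x := by
        refine le_trans ?_ (mul_le_mul_of_nonneg_left (Df_row (B j) P x c) hK0)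
        rw [Matrix.mul_apply, Finset.mul_sum]
        refine (norm_sum_le _ _).trans (Finset.sum_le_sum fun p _ => ?_)
        rw [norm_mul, Matrix.conjTranspose_apply, norm_star, Matrix.sub_apply]
        exact mul_le_mul_of_nonneg_right (hKP x hx a p).2.1 (norm_nonneg _)
      rw [hid]
      refine (norm_sub_le _ _).trans ?_
      simp only
      linarith
  intro x hx
  ext a c
  exact sub_eq_zero.1 (norm_eq_zero.1 (le_antisymm (hall a c x hx) (norm_nonneg _)))

/-- change of variables: the transported error tends to zero -/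
theorem Ctx.lim_arrow (h : Ctx T H d B P) {U : Set (Cn n)} {τ : Cn n → Cn n} (hU : IsOpen U)
    (hUT : U ⊆ T) (hτ : DifferentiableOn ℂ τ U) (hmap : MapsTo τ U T)
    (hdet : ∀ x ∈ U, (fderiv ℂ τ x).det ≠ 0) (hinv : ∀ j, ∀ x ∈ U, d j (τ x) = d j x)
    {C : Set (Cn n)} (hCU : C ⊆ U) (hC : IsCompact C) (hinj : InjOn τ C) :
    Tendsto (fun j => ∫ x in C, d j x * Df (B j) P (τ x)) atTop (𝓝 0) := by
  have hτc : ContinuousOn τ U := hτ.continuousOn
  have hcont : ContinuousOn (fun z => ‖(fderiv ℂ τ z).det‖ ^ 2) U := by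
    have h3 : ContinuousOn (fderiv ℂ τ) U := (holo_fderiv hU hτ).continuousOn
    exact ((ContinuousLinearMap.continuous_det.comp_continuousOn h3).norm).pow 2
  have hci : ContinuousOn (fun z => (‖(fderiv ℂ τ z).det‖ ^ 2)⁻¹) C :=
    (hcont.mono hCU).inv₀ fun z hz => by
      have := hdet z (hCU hz)
      positivity
  obtain ⟨m, hm⟩ := hC.exists_bound_of_continuousOn hci
  have hCm : MeasurableSet C := hC.isClosed.measurableSet
  have himT : τ '' C ⊆ T := by
    rintro _ ⟨x, hx, rfl⟩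
    exact hmap (hCU hx)
  have himc : IsCompact (τ '' C) := hC.image_of_continuousOn (hτc.mono hCU)
  have hDc : ∀ j, ContinuousOn (Df (B j) P) T := fun j => Df_cont (h.Bc j) h.Pc
  have hd : ∀ x ∈ C, HasFDerivWithinAt τ ((fderiv ℂ τ x).restrictScalars ℝ) C x := by
    intro x hx
    exact ((hτ.differentiableAt (hU.mem_nhds (hCU hx))).hasFDerivAt.restrictScalars
      ℝ).hasFDerivWithinAt
  have hdetr : ∀ x, |((fderiv ℂ τ x).restrictScalars ℝ).det| = ‖(fderiv ℂ τ x).det‖ ^ 2 := by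
    intro x
    rw [Pool.Agent.Helper36.Abund.det_restrictScalars_eq, abs_of_nonneg (by positivity)]
  have hle : ∀ j, ∫ x in C, d j x * Df (B j) P (τ x) ≤
      |m| * ∫ x in τ '' C, d j x * Df (B j) P x := by
    intro j
    rw [integral_image_eq_integral_abs_det_fderiv_smul (volume : Measure (Cn n)) hCm hd hinj,
      ← integral_const_mul]
    have c1 : ContinuousOn (fun x => Df (B j) P (τ x)) C :=
      (hDc j).comp (hτc.mono hCU) fun x hx => hmap (hCU hx)
    have c2 : ContinuousOn (fun x => d j (τ x)) C :=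
      (h.dc j).comp (hτc.mono hCU) fun x hx => hmap (hCU hx)
    have i1 : IntegrableOn (fun x => d j x * Df (B j) P (τ x)) C :=
      (((h.dc j).mono (hCU.trans hUT)).mul c1).integrableOn_compact hC
    have i2 : IntegrableOn (fun x => |m| * |((fderiv ℂ τ x).restrictScalars ℝ).det| •
        (d j (τ x) * Df (B j) P (τ x))) C := by
      simp only [hdetr, smul_eq_mul]
      exact (continuousOn_const.mul ((hcont.mono hCU).mul (c2.mul c1))).integrableOn_compact hC
    refine setIntegral_mono_on i1 i2 hCm fun x hx => ?_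
    have hxU := hCU hx
    rw [hdetr, smul_eq_mul, hinv j x hxU]
    have h1 : (‖(fderiv ℂ τ x).det‖ ^ 2)⁻¹ ≤ |m| :=
      ((le_abs_self _).trans (hm x hx)).trans (le_abs_self m)
    have h2 : 0 < ‖(fderiv ℂ τ x).det‖ ^ 2 := by
      have := hdet x hxU
      positivity
    have h3 : 1 ≤ |m| * ‖(fderiv ℂ τ x).det‖ ^ 2 := by
      calc (1 : ℝ) = (‖(fderiv ℂ τ x).det‖ ^ 2)⁻¹ * ‖(fderiv ℂ τ x).det‖ ^ 2 :=
            (inv_mul_cancel₀ h2.ne').symm
        _ ≤ _ := mul_le_mul_of_nonneg_right h1 h2.le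
    have h4 : 0 ≤ d j x * Df (B j) P (τ x) :=
      mul_nonneg (h.d0 j x (hUT hxU)) (Df_nonneg _ _ _)
    calc d j x * Df (B j) P (τ x) = 1 * (d j x * Df (B j) P (τ x)) := (one_mul _).symm
      _ ≤ (|m| * ‖(fderiv ℂ τ x).det‖ ^ 2) * (d j x * Df (B j) P (τ x)) :=
          mul_le_mul_of_nonneg_right h3 h4
      _ = _ := by ring
  have hge : ∀ j, 0 ≤ ∫ x in C, d j x * Df (B j) P (τ x) := fun j =>
    setIntegral_nonneg hCm fun x hx =>
      mul_nonneg (h.d0 j x (hUT (hCU hx))) (Df_nonneg _ _ _)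
  have hlim := (h.lim himT himc).const_mul |m|
  rw [mul_zero] at hlim
  exact squeeze_zero hge hle hlim

theorem hermi_cont {C : Set (Cn n)} {A : Cn n → Matrix (Fin n) (Fin n) ℂ} {u v : Cn n → Cn n}
    (hA : ∀ a c, ContinuousOn (fun x => A x a c) C) (hu : ContinuousOn u C)
    (hv : ContinuousOn v C) : ContinuousOn (fun x => hermi (A x) (u x) (v x)) C := by
  unfold hermi
  refine continuousOn_finsetSum _ fun i _ => continuousOn_finsetSum _ fun j _ => ?_
  have h1 : ContinuousOn (fun x => u x i) C := (continuous_apply i).comp_continuousOn hu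
  have h2 : ContinuousOn (fun x => v x j) C := (continuous_apply j).comp_continuousOn hv
  exact ((hA i j).mul h1).mul (Complex.continuous_conj.comp_continuousOn h2)

theorem Ctx.nat (h : Ctx T H d B P) {U : Set (Cn n)} {τ : Cn n → Cn n} (hU : IsOpen U)
    (hUT : U ⊆ T) (hτ : DifferentiableOn ℂ τ U) (hmap : MapsTo τ U T)
    (hdet : ∀ x ∈ U, (fderiv ℂ τ x).det ≠ 0) (hinv : ∀ j, ∀ x ∈ U, d j (τ x) = d j x)
    (hinj : InjOn τ U) (hBinv : ∀ j, ∀ x ∈ U, ∀ u v,
      hermi (B j (τ x) * H (τ x)) (fderiv ℂ τ x u) (fderiv ℂ τ x v) =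
        hermi (B j x * H x) u v) (u v : Cn n) :
    ∀ x ∈ U, hermi (P (τ x) * H (τ x)) (fderiv ℂ τ x u) (fderiv ℂ τ x v) =
      hermi (P x * H x) u v := by
  have hτc : ContinuousOn τ U := hτ.continuousOn
  have hfc : ContinuousOn (fderiv ℂ τ) U := (holo_fderiv hU hτ).continuousOn
  have huc : ∀ w : Cn n, ContinuousOn (fun x => fderiv ℂ τ x w) U := fun w =>
    hfc.clm_apply continuousOn_const
  have hcomp : ∀ {X : Cn n → Matrix (Fin n) (Fin n) ℂ},
      (∀ a c, ContinuousOn (fun x => X x a c) T) →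
      ∀ a c, ContinuousOn (fun x => X (τ x) a c) U := fun hX a c =>
    (hX a c).comp hτc hmap
  have hall : ∀ x ∈ U, ‖hermi (P (τ x) * H (τ x)) (fderiv ℂ τ x u) (fderiv ℂ τ x v) -
      hermi (P x * H x) u v‖ ≤ 0 := by
    refine h.key hU hUT ?_ ?_
    · refine (ContinuousOn.sub ?_ ?_).norm
      · exact hermi_cont (cont_mul (hcomp h.Pc) (hcomp h.Hc)) (huc u) (huc v)
      · exact hermi_cont (fun a c => (cont_mul h.Pc h.Hc a c).mono hUT) continuousOn_const
          continuousOn_const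
    intro C hCU hC
    have himT : τ '' C ⊆ T := by
      rintro _ ⟨x, hx, rfl⟩
      exact hmap (hCU hx)
    have himc : IsCompact (τ '' C) := hC.image_of_continuousOn (hτc.mono hCU)
    obtain ⟨K, hK0, hKB, hKP⟩ := h.bd (union_subset (hCU.trans hUT) himT) (hC.union himc)
    obtain ⟨b₁, hb₁⟩ := hC.exists_bound_of_continuousOn ((huc u).mono hCU)
    obtain ⟨b₂, hb₂⟩ := hC.exists_bound_of_continuousOn ((huc v).mono hCU)
    set b : ℝ := max (|b₁| * |b₂|) (‖u‖ * ‖v‖) with hb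
    have hb0 : 0 ≤ b := le_trans (by positivity) (le_max_left _ _)
    have hDc : ∀ j, ContinuousOn (Df (B j) P) T := fun j => Df_cont (h.Bc j) h.Pc
    refine ⟨n * K * b, fun j x => Df (B j) P x + Df (B j) P (τ x), ?_, ?_, ?_⟩
    · intro j
      exact ((hDc j).mono (hCU.trans hUT)).add
        ((hDc j).comp (hτc.mono hCU) fun x hx => hmap (hCU hx))
    · intro j x hx
      have hxU := hCU hx
      have hest : ∀ y ∈ C ∪ τ '' C, ∀ u' v' : Cn n, ‖u'‖ * ‖v'‖ ≤ b →
          ‖hermi ((B j y - P y) * H y) u' v'‖ ≤ n * K * b * Df (B j) P y := by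
        intro y hy u' v' huv
        have h1 : ∑ i, ∑ l, ‖((B j y - P y) * H y) i l‖ ≤ n * K * Df (B j) P y := by
          calc ∑ i, ∑ l, ‖((B j y - P y) * H y) i l‖
              ≤ ∑ i, ∑ _l : Fin n, K * ∑ p, ‖B j y i p - P y i p‖ :=
                Finset.sum_le_sum fun i _ => Finset.sum_le_sum fun l _ =>
                  mulDf_right (fun a c => (hKP y hy a c).2.1) i l
            _ = n * K * Df (B j) P y := by
                unfold Df
                simp only [Finset.sum_const, Finset.card_univ, Fintype.card_fin, nsmul_eq_mul,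
                  Finset.mul_sum]
                refine Finset.sum_congr rfl fun i _ => Finset.sum_congr rfl fun p _ => ?_
                ring
        have h0 := Df_nonneg (B j) P y
        calc ‖hermi ((B j y - P y) * H y) u' v'‖ ≤ _ := hermi_norm_le _ _ _
          _ ≤ (n * K * Df (B j) P y) * b :=
              mul_le_mul h1 huv (by positivity) (by positivity)
          _ = _ := by ring
      have e1 : ‖fderiv ℂ τ x u‖ * ‖fderiv ℂ τ x v‖ ≤ b :=
        (mul_le_mul ((hb₁ x hx).trans (le_abs_self _)) ((hb₂ x hx).trans (le_abs_self _))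
          (norm_nonneg _) (abs_nonneg _)).trans (le_max_left _ _)
      have e2 := hest x (Or.inl hx) u v (le_max_right _ _)
      have e3 := hest (τ x) (Or.inr ⟨x, hx, rfl⟩) _ _ e1
      have hid : hermi (P (τ x) * H (τ x)) (fderiv ℂ τ x u) (fderiv ℂ τ x v) -
          hermi (P x * H x) u v = hermi ((B j x - P x) * H x) u v -
          hermi ((B j (τ x) - P (τ x)) * H (τ x)) (fderiv ℂ τ x u) (fderiv ℂ τ x v) := by
        rw [Matrix.sub_mul, Matrix.sub_mul, hermi_sub_left, hermi_sub_left, hBinv j x hxU]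
        ring
      rw [hid]
      refine (norm_sub_le _ _).trans ?_
      simp only
      linarith
    · have h1 := h.lim_arrow hU hUT hτ hmap hdet hinv hCU hC (hinj.mono hCU)
      exact h.lim_add (hCU.trans hUT) hC (fun j =>
        (hDc j).comp (hτc.mono hCU) fun x hx => hmap (hCU hx)) h1
  intro x hx
  exact sub_eq_zero.1 (norm_eq_zero.1 (le_antisymm (hall x hx) (norm_nonneg _)))

end ctx

theorem lpr (hARRB : S_ARRB.{u}) (hDETI : S_DETI.{u}) (hUB : S_UB.{u}) (hDBB : S_DBB.{u}) :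
    S_LPR.{u} := by
  intro n T G _ R H hK hRBC k ε Q P hε hQ hP hbd hconv hlow hsq htr
  have hTo := hK.et.isOpen
  have hHer : HerT T R H := ⟨hK.posDef, hK.smooth, hK.inv⟩
  obtain ⟨hD1, hD2, hD3, -, hD5, -⟩ := hDETI T R H hK
  have hQD := fun j => hDETI T R (Q j) (hQ j).ket
  have hub : ∀ j, ∀ x ∈ T, ε j * (Matrix.trace (H x * (Q j x)⁻¹)).re ≤ n := by
    intro j x hx
    have h1 := hUB T R (Q j) H (fun x => (ε j : ℂ) • H x) (hQ j).ket hHer hRBC (hQ j).eq (ε j)
      (hε j) (fun x _ => by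
        simp only [sub_self]
        exact Matrix.PosSemidef.zero) x hx
    rwa [le_div_iff₀ (hε j), mul_comm] at h1
  have hHc : ∀ a c, ContinuousOn (fun x => H x a c) T := fun a c => (hK.smooth a c).continuousOn
  have hctx : Ctx T H (fun j => dens k (ε j) H (Q j)) (fun j => Bep (ε j) H (Q j)) P := by
    refine ⟨hTo, ?_, ?_, ?_, ?_, hHc, fun a c => (hD3 a c).continuousOn, hK.posDef, ?_, hconv,
      hlow, ?_⟩
    · intro j
      unfold dens
      refine ((hQD j).2.1.continuousOn).div (continuousOn_const.mul hD2.continuousOn) ?_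
      intro x hx
      have h1 := (hD1 x hx).2.1
      have h2 := hε j
      positivity
    · intro j x hx
      unfold dens
      have h1 := (hD1 x hx).2.1
      have h2 := hε j
      have h3 := ((hQD j).1 x hx).2.1
      positivity
    · intro j a c
      unfold Bep
      simp only [Matrix.smul_apply, smul_eq_mul]
      exact continuousOn_const.mul (cont_mul hHc
        (fun a c => ((hQD j).2.2.1 a c).continuousOn) a c)
    · exact fun a c => (hP a c).continuousOn
    · intro C hCT hC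
      obtain ⟨K, hK'⟩ := hDBB T R H hHer C hCT hC
      exact ⟨K, fun j x hx a c => (hK' (ε j) (Q j) (hε j) (hQ j).ket (hub j) x hx).1 a c⟩
    · intro j x hx
      unfold Bep
      have h1 : (H x).IsHermitian := (hK.posDef x hx).isHermitian
      have h2 : ((Q j x)⁻¹).IsHermitian := ((hQD j).1 x hx).2.2.1.isHermitian
      rw [Matrix.conjTranspose_smul, Matrix.conjTranspose_mul, h1.eq, h2.eq, RCLike.star_def,
        Complex.conj_ofReal, Matrix.smul_mul, Matrix.mul_smul, Matrix.mul_assoc]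
  refine ⟨hctx.proj hsq, hctx.tr ?_ k htr, hctx.herm, ?_⟩
  · intro j x hx
    unfold Bep
    rw [Matrix.trace_smul, smul_eq_mul, Complex.mul_im, Complex.ofReal_im, zero_mul, add_zero,
      trace_real (hK.posDef x hx).isHermitian ((hQD j).1 x hx).2.2.1.isHermitian, mul_zero]
  · intro U τ harr x₀ hx₀ u v
    obtain ⟨hUo, hτd, γ, hγ⟩ := harr
    have hmem : ∀ x ∈ U, x ∈ T ∧ τ x ∈ T := fun x hx => hK.et.mem γ x (τ x) (hγ x hx)
    obtain ⟨hA1, hA2, hA3, -⟩ := hARRB T R hK.et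
    obtain ⟨U₁, τ₁, σ, hxU₁, hU₁T, hL₁, hτ₁, hinj₁, -⟩ := hA1 γ x₀ (τ x₀) (hγ x₀ hx₀)
    have hev := hA3 γ U U₁ τ τ₁ ⟨hUo, hτd, hγ⟩ hL₁ x₀ hx₀ hxU₁ hτ₁.symm
    obtain ⟨V, hV, hVo, hxV⟩ := _root_.mem_nhds_iff.mp
      (Filter.inter_mem hev (Filter.inter_mem (hUo.mem_nhds hx₀) (hL₁.1.mem_nhds hxU₁)))
    have hVU : V ⊆ U := fun x hx => (hV hx).2.1
    have hinj : InjOn τ V := by
      intro x hx y hy hxy
      have e1 : τ x = τ₁ x := (hV hx).1
      have e2 : τ y = τ₁ y := (hV hy).1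
      exact hinj₁ (hV hx).2.2 (hV hy).2.2 (by rw [← e1, ← e2, hxy])
    refine hctx.nat hVo (fun x hx => (hmem x (hVU hx)).1) (hτd.mono hVU)
      (fun x hx => (hmem x (hVU hx)).2) (fun x hx => (hA2 γ U τ ⟨hUo, hτd, hγ⟩ x (hVU hx)).1)
      ?_ hinj ?_ u v x₀ hxV
    · intro j x hx
      have e1 := (hD5 U τ ⟨hUo, hτd, γ, hγ⟩ x (hVU hx)).1
      have e2 := ((hQD j).2.2.2.2.1 U τ ⟨hUo, hτd, γ, hγ⟩ x (hVU hx)).1
      have e3 : 0 < ‖(fderiv ℂ τ x).det‖ ^ 2 := by
        have := (hA2 γ U τ ⟨hUo, hτd, hγ⟩ x (hVU hx)).1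
        positivity
      unfold dens
      rw [e1, e2, ← mul_assoc, mul_div_mul_right _ _ e3.ne']
    · intro j x hx u' v'
      have hxT := (hmem x (hVU hx)).1
      have e1 : H x = JM (fderiv ℂ τ x) * H (τ x) * (JM (fderiv ℂ τ x))ᴴ := by
        refine hermi_ext fun a b => ?_
        rw [← hermi_J]
        exact (hK.inv U τ ⟨hUo, hτd, γ, hγ⟩ x (hVU hx) a b).symm
      have e2 : Q j x = JM (fderiv ℂ τ x) * Q j (τ x) * (JM (fderiv ℂ τ x))ᴴ := by
        refine hermi_ext fun a b => ?_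
        rw [← hermi_J]
        exact ((hQ j).ket.inv U τ ⟨hUo, hτd, γ, hγ⟩ x (hVU hx) a b).symm
      have e3 := nat_form e1 e2 ((hQ j).ket.posDef x hxT).det_pos.ne'
      rw [hermi_J]
      congr 1
      unfold Bep
      rw [Matrix.smul_mul, Matrix.smul_mul, Matrix.mul_smul, Matrix.smul_mul, e3]

end Pool.Agent.Helper19.HS
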