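import Pool.Agent.Helper95.HS.GoalsB

/-!
# Packet HS ESLE: the average of the transversal trace is bounded
-/

open Complex Metric Set Filter Topology MeasureTheory
open scoped ContDiff ComplexConjugate ComplexOrder Manifold Matrix

namespace Pool.Agent.Helper19.HS

open Pool.Agent.Helper95.Lin Pool.Agent.Helper16.Abund Pool.Agent.Helper10.SP
  Pool.Agent.Helper95.RK Pool.Agent.Helper57.HS Pool.Agent.Helper95.HS

universe u v

theorem int_test {n : ℕ} {T : Set (Cn n)} {κ : Cn n → ℝ} (hκ : TestF T κ) {q : Cn n → ℝ}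
    (hq : ContinuousOn q T) : Integrable (fun x => κ x * q x) := by
  have hs : Function.support (fun x => κ x * q x) ⊆ tsupport κ := by
    intro x hx
    refine subset_tsupport κ ?_
    intro h0
    exact hx (by simp [h0])
  rw [← integrableOn_iff_integrable_of_support_subset hs]
  exact (hκ.1.continuous.continuousOn.mul (hq.mono hκ.2.2)).integrableOn_compact hκ.2.1

theorem cont_det_re {n m : ℕ} {T : Set (Cn n)} {X : Cn n → Matrix (Fin m) (Fin m) ℂ}
    (hX : ∀ a c, ContinuousOn (fun x => X x a c) T) : ContinuousOn (fun x => (X x).det.re) T := by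
  have h1 : ContinuousOn X T := continuousOn_pi.2 fun a => continuousOn_pi.2 fun c => hX a c
  have h2 : Continuous fun A : Matrix (Fin m) (Fin m) ℂ => A.det.re :=
    Complex.continuous_re.comp continuous_id.matrix_det
  exact h2.comp_continuousOn h1

theorem cont_tr_mul_re {n m : ℕ} {T : Set (Cn n)} {X Y : Cn n → Matrix (Fin m) (Fin m) ℂ}
    (hX : ∀ a c, ContinuousOn (fun x => X x a c) T)
    (hY : ∀ a c, ContinuousOn (fun x => Y x a c) T) :
    ContinuousOn (fun x => (Matrix.trace (X x * Y x)).re) T := by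
  refine Complex.continuous_re.comp_continuousOn ?_
  simp only [Matrix.trace, Matrix.diag_apply, Matrix.mul_apply]
  exact continuousOn_finsetSum _ fun a _ => continuousOn_finsetSum _ fun c _ =>
    (hX a c).mul (hY c a)

theorem esle (hPARF : S_PARF.{u}) (hMOMP : S_MOMP.{u}) (hVNB : S_VNB.{u}) (hTRC : S_TRC)
    (hDETI : S_DETI.{u}) : S_ESLE.{u} := by
  intro n T G _ R H hK κ hκ k P hP
  obtain ⟨ε₀, c, C, hε0, hε1, hc, hlow, hup⟩ := hVNB T R H hK κ hκ k P hP
  obtain ⟨-, ⟨-, hCHF, -⟩, hPS, -⟩ := hPARF T R H hK k P hP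
  have hCpos : 0 < C :=
    lt_of_lt_of_le hc ((hlow ε₀ hε0 le_rfl).trans (hup ε₀ hε0.le (by linarith)))
  refine ⟨ε₀, C / c, hε0, hε1, ?_⟩
  intro ε Q hε hεle hQ
  have hQc : ∀ a c, ContinuousOn (fun x => Q x a c) T := fun a c =>
    (hQ.ket.smooth a c).continuousOn
  obtain ⟨hD1, -, hD3, -⟩ := hDETI T R Q hQ.ket
  have hQi : ∀ a c, ContinuousOn (fun x => (Q x)⁻¹ a c) T := fun a c => (hD3 a c).continuousOn
  have hYc : ∀ a c, ContinuousOn (fun x => ((1 - P x) * H x) a c) T := fun a c =>
    (hCHF.smooth a c).continuousOn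
  have h0 := (hMOMP T R H hK κ hκ k P hP ε Q hε hQ 0 le_rfl).2
  have h1 := (hMOMP T R H hK κ hκ k P hP ε Q hε hQ 1 zero_le_one).2
  simp only [Complex.ofReal_zero, zero_smul, add_zero] at h0
  simp only [Complex.ofReal_one, one_smul] at h1
  -- integrability
  have i1 : Integrable (fun x => κ x * (Q x).det.re) := int_test hκ.test (cont_det_re hQc)
  have hSc : ContinuousOn (trP (fun x => 1 - P x) H Q) T := by
    unfold trP
    exact cont_tr_mul_re hYc hQi
  have i2 : Integrable (fun x => κ x * (Q x).det.re * trP (fun x => 1 - P x) H Q x) := by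
    have := int_test hκ.test ((cont_det_re hQc).mul hSc)
    refine this.congr (Filter.Eventually.of_forall fun x => ?_)
    simp only [Pi.mul_apply]
    ring
  have i3 : Integrable (fun x => κ x * (Q x + (1 - P x) * H x).det.re) := by
    refine int_test hκ.test (cont_det_re fun a c => ?_)
    simp only [Matrix.add_apply]
    exact (hQc a c).add (hYc a c)
  have hTm : MeasurableSet T := hK.et.isOpen.measurableSet
  have hsum : vol T κ Q + ∫ x in T, κ x * (Q x).det.re * trP (fun x => 1 - P x) H Q x ≤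
      vol T κ fun x => Q x + (1 - P x) * H x := by
    unfold vol
    rw [← integral_add i1.integrableOn i2.integrableOn]
    refine setIntegral_mono_on (i1.integrableOn.add i2.integrableOn) i3.integrableOn hTm ?_
    intro x hx
    have e1 := ((hTRC (Q x) ((1 - P x) * H x) (hQ.ket.posDef x hx)).2.2.2.2 1 zero_le_one
      (hPS x hx).2).1
    rw [Complex.ofReal_one, one_smul, one_mul] at e1
    have e2 : trP (fun x => 1 - P x) H Q x = (Matrix.trace ((Q x)⁻¹ * ((1 - P x) * H x))).re := by
      unfold trP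
      rw [Matrix.trace_mul_comm]
    rw [← e2] at e1
    have e3 := mul_le_mul_of_nonneg_left e1 (hκ.nonneg x)
    calc κ x * (Q x).det.re + κ x * (Q x).det.re * trP (fun x => 1 - P x) H Q x =
        κ x * ((Q x).det.re * (1 + trP (fun x => 1 - P x) H Q x)) := by ring
      _ ≤ _ := e3
  have hek : 0 < ε ^ k := by positivity
  have hv0 : c * ε ^ k ≤ vol T κ Q := by
    rw [h0, mul_comm]
    exact mul_le_mul_of_nonneg_left (hlow ε hε hεle) hek.le
  have hv1 : vol T κ (fun x => Q x + (1 - P x) * H x) ≤ C * ε ^ k := by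
    rw [h1, mul_comm]
    exact mul_le_mul_of_nonneg_right (hup (ε + 1) (by linarith) (by linarith)) hek.le
  have hvp : 0 ≤ vol T κ Q := le_trans (by positivity) hv0
  calc ∫ x in T, κ x * (Q x).det.re * trP (fun x => 1 - P x) H Q x ≤ C * ε ^ k := by linarith
    _ = C / c * (c * ε ^ k) := by field_simp
    _ ≤ C / c * vol T κ Q := mul_le_mul_of_nonneg_left hv0 (by positivity)

end Pool.Agent.Helper19.HS
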